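import Mathlib

set_option autoImplicit false

/-!
# MP_b67aea_co: for every `k ≥ 4` the map `pre_k` is non-injective for all large `n`

`λ = (x a_i, y b_j)`, `μ = c / λ` with `c = c₀ x y`, where `a ≠ a'` are two `k`-tuples with equal
sum, equal product and equal sum of reciprocals and `b_j = c₀ / a'_j`.
-/

namespace Pool.Agent.Results.MP_b67aea_co.AllKFromFour

open Finset

/-- The partition `pre_k(λ)`: the multiset of the products of the `k`-element sub-multisets of
the parts. -/
def pre (k : ℕ) (s : Multiset ℕ) : Multiset ℕ := (s.powersetCard k).map Multiset.prod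

/-- `pre k` of a family indexed by a finite type. -/
lemma pre_family {ι : Type} [Fintype ι] [DecidableEq ι] (k : ℕ) (f : ι → ℕ) :
    pre k (univ.val.map f) = (univ.powersetCard k : Finset (Finset ι)).val.map
      (fun s => ∏ i ∈ s, f i) := by
  unfold pre
  rw [Multiset.powersetCard_map, Multiset.map_map]
  have h : ((univ : Finset ι).val.powersetCard k) =
      (univ.powersetCard k : Finset (Finset ι)).val.map Finset.val := by
    rw [Finset.map_val_val_powersetCard]
  rw [h, Multiset.map_map]
  rfl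

/-- The complement trick: if `f i * g i = c` for all `i`, `∏ f = c ^ k` and there are `2 k`
indices, then `pre k` agrees on the two families. -/
lemma pre_eq {ι : Type} [Fintype ι] [DecidableEq ι] (k c : ℕ) (f g : ι → ℕ)
    (hcard : Fintype.card ι = 2 * k) (hf : ∀ i, 0 < f i) (hfg : ∀ i, f i * g i = c)
    (hprod : ∏ i, f i = c ^ k) :
    pre k (univ.val.map f) = pre k (univ.val.map g) := by
  rw [pre_family, pre_family]
  have key : ∀ s ∈ (univ.powersetCard k : Finset (Finset ι)), ∏ i ∈ s, g i = ∏ i ∈ sᶜ, f i := by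
    intro s hs
    rw [Finset.mem_powersetCard] at hs
    have h1 : (∏ i ∈ s, f i) * ∏ i ∈ s, g i = c ^ k := by
      rw [← Finset.prod_mul_distrib, Finset.prod_congr rfl (fun i _ => hfg i),
        Finset.prod_const, hs.2]
    have h2 : (∏ i ∈ s, f i) * ∏ i ∈ sᶜ, f i = c ^ k := by
      rw [Finset.prod_mul_prod_compl, hprod]
    have h3 : 0 < ∏ i ∈ s, f i := Finset.prod_pos (fun i _ => hf i)
    exact Nat.eq_of_mul_eq_mul_left h3 (h1.trans h2.symm)
  have e2 : (univ.powersetCard k : Finset (Finset ι)).val.map (fun s => ∏ i ∈ s, g i) =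
      (univ.powersetCard k : Finset (Finset ι)).val.map (fun s => ∏ i ∈ sᶜ, f i) :=
    Multiset.map_congr rfl (fun s hs => key s hs)
  rw [e2]
  have e3 : ((univ.powersetCard k : Finset (Finset ι)).val.map (fun s => sᶜ)) =
      (univ.powersetCard k : Finset (Finset ι)).val := by
    have h4 : (univ.powersetCard k : Finset (Finset ι)).image (fun s => sᶜ) =
        univ.powersetCard k := by
      ext s
      simp only [Finset.mem_image, Finset.mem_powersetCard, Finset.subset_univ, true_and]
      constructor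
      · rintro ⟨t, ht, rfl⟩
        rw [Finset.card_compl, hcard, ht]; omega
      · intro hs
        exact ⟨sᶜ, by rw [Finset.card_compl, hcard, hs]; omega, by simp⟩
    have h5 : Set.InjOn (fun s : Finset ι => sᶜ) (univ.powersetCard k : Finset (Finset ι)) :=
      fun s _ t _ h => compl_injective h
    rw [← Finset.image_val_of_injOn h5, h4]
  conv_lhs => rw [← e3]
  rw [Multiset.map_map]
  rfl

/-- A family of positive integers as a partition of its sum. -/
def part {ι : Type} [Fintype ι] (n : ℕ) (f : ι → ℕ) (hf : ∀ i, 0 < f i) (hs : ∑ i, f i = n) :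
    Nat.Partition n where
  parts := univ.val.map f
  parts_pos := by
    intro i hi
    rw [Multiset.mem_map] at hi
    obtain ⟨j, -, rfl⟩ := hi
    exact hf j
  parts_sum := hs

/-- Two coprime positive integers represent all large numbers, with bounded second coefficient
and large first coefficient. -/
lemma represent (A B K : ℕ) (hA : 0 < A) (hAB : Nat.Coprime A B) :
    ∃ M : ℕ, ∀ n ≥ M, ∃ x y : ℕ, 0 < y ∧ y * K < x ∧ n = x * A + y * B := by
  refine ⟨2 * A * B + A * (2 * A * K + 1), fun n hn => ?_⟩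
  obtain ⟨z, hz1, hz2⟩ := Nat.chineseRemainder hAB n 0
  obtain ⟨u, hu⟩ : B ∣ z := (Nat.modEq_zero_iff_dvd).1 hz2
  -- reduce `u` modulo `A`
  set y : ℕ := u % A + A with hy
  have hy1 : y < 2 * A := by have := Nat.mod_lt u hA; omega
  have hmod : y * B ≡ n [MOD A] := by
    have h1 : y ≡ u [MOD A] := by
      unfold Nat.ModEq
      rw [hy, Nat.add_mod_right, Nat.mod_mod]
    have h2 : y * B ≡ u * B [MOD A] := h1.mul_right B
    rw [mul_comm u B, ← hu] at h2
    exact h2.trans hz1
  have hyB : y * B ≤ 2 * A * B := Nat.mul_le_mul_right B hy1.le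
  have hle : y * B ≤ n := by omega
  obtain ⟨x, hx⟩ := (Nat.modEq_iff_dvd' hle).1 hmod
  refine ⟨x, y, by omega, ?_, ?_⟩
  · have h1 : A * (2 * A * K + 1) ≤ A * x := by rw [← hx]; omega
    have h2 : 2 * A * K + 1 ≤ x := Nat.le_of_mul_le_mul_left h1 hA
    have h3 : y * K ≤ 2 * A * K := Nat.mul_le_mul_right K hy1.le
    omega
  · rw [mul_comm x A, ← hx]; omega

/-- The collision from a pair of `k`-tuples. -/
lemma collide {ι : Type} [Fintype ι] [DecidableEq ι] (k c A B : ℕ) (a a' : ι → ℕ)
    (hcard : Fintype.card ι = k) (ha : ∀ i, 0 < a i) (ha' : ∀ i, 0 < a' i)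
    (hac : ∀ i, a i ∣ c) (hac' : ∀ i, a' i ∣ c) (hc : 0 < c)
    (hA : ∑ i, a i = A) (hA' : ∑ i, a' i = A) (hB : ∑ i, c / a i = B) (hB' : ∑ i, c / a' i = B)
    (hprod : ∏ i, a i = ∏ i, a' i) (hA0 : 0 < A) (hcop : Nat.Coprime A B)
    (i₀ : ι) (hi₀ : ∀ j, a i₀ ≠ a' j) :
    ∃ M : ℕ, ∀ n ≥ M, ∃ l m : Nat.Partition n, l ≠ m ∧ l.parts.card = 2 * k ∧
      m.parts.card = 2 * k ∧ pre k l.parts = pre k m.parts := by
  obtain ⟨M, hM⟩ := represent A B c hA0 hcop
  refine ⟨M, fun n hn => ?_⟩
  obtain ⟨x, y, hy, hxy, hnxy⟩ := hM n hn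
  have hx : 0 < x := by omega
  have hq : ∀ i, 0 < c / a i := fun i => Nat.div_pos (Nat.le_of_dvd hc (hac i)) (ha i)
  have hq' : ∀ i, 0 < c / a' i := fun i => Nat.div_pos (Nat.le_of_dvd hc (hac' i)) (ha' i)
  set f : ι ⊕ ι → ℕ := Sum.elim (fun i => x * a i) (fun j => y * (c / a' j)) with hf
  set g : ι ⊕ ι → ℕ := Sum.elim (fun i => y * (c / a i)) (fun j => x * a' j) with hg
  have hfpos : ∀ i, 0 < f i := by
    rintro (i | j)
    · exact Nat.mul_pos hx (ha i)
    · exact Nat.mul_pos hy (hq' j)
  have hgpos : ∀ i, 0 < g i := by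
    rintro (i | j)
    · exact Nat.mul_pos hy (hq i)
    · exact Nat.mul_pos hx (ha' j)
  have hfg : ∀ i, f i * g i = c * x * y := by
    rintro (i | j)
    · show x * a i * (y * (c / a i)) = c * x * y
      calc x * a i * (y * (c / a i)) = (a i * (c / a i)) * x * y := by ring
        _ = c * x * y := by rw [Nat.mul_div_cancel' (hac i)]
    · show y * (c / a' j) * (x * a' j) = c * x * y
      calc y * (c / a' j) * (x * a' j) = (a' j * (c / a' j)) * x * y := by ring
        _ = c * x * y := by rw [Nat.mul_div_cancel' (hac' j)]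
  have hfprod : ∏ i, f i = (c * x * y) ^ k := by
    rw [Fintype.prod_sum_type]
    show (∏ i, x * a i) * ∏ j, y * (c / a' j) = (c * x * y) ^ k
    rw [Finset.prod_mul_distrib, Finset.prod_mul_distrib, hprod]
    have h1 : (∏ i, a' i) * ∏ i, c / a' i = c ^ k := by
      rw [← Finset.prod_mul_distrib, Finset.prod_congr rfl
        (fun i _ => Nat.mul_div_cancel' (hac' i)), Finset.prod_const, Finset.card_univ, hcard]
    rw [Finset.prod_const, Finset.prod_const, Finset.card_univ, hcard]
    calc x ^ k * (∏ i, a' i) * (y ^ k * ∏ i, c / a' i)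
        = ((∏ i, a' i) * ∏ i, c / a' i) * x ^ k * y ^ k := by ring
      _ = (c * x * y) ^ k := by rw [h1]; ring
  have hfsum : ∑ i, f i = n := by
    rw [Fintype.sum_sum_type]
    show (∑ i, x * a i) + ∑ j, y * (c / a' j) = n
    rw [← Finset.mul_sum, ← Finset.mul_sum, hA, hB', hnxy]
  have hgsum : ∑ i, g i = n := by
    rw [Fintype.sum_sum_type]
    show (∑ i, y * (c / a i)) + ∑ j, x * a' j = n
    rw [← Finset.mul_sum, ← Finset.mul_sum, hA', hB, hnxy, add_comm]
  have hcard2 : Fintype.card (ι ⊕ ι) = 2 * k := by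
    rw [Fintype.card_sum, hcard]; ring
  refine ⟨part n f hfpos hfsum, part n g hgpos hgsum, ?_, ?_, ?_, ?_⟩
  · intro h
    have h1 : (univ.val.map f) = (univ.val.map g) := congrArg Nat.Partition.parts h
    have h2 : x * a i₀ ∈ univ.val.map f :=
      Multiset.mem_map.2 ⟨Sum.inl i₀, Finset.mem_univ _, rfl⟩
    rw [h1, Multiset.mem_map] at h2
    obtain ⟨(i | j), -, h3⟩ := h2
    · have h3' : y * (c / a i) = x * a i₀ := h3
      have h4 : y * (c / a i) ≤ y * c := Nat.mul_le_mul_left y (Nat.div_le_self _ _)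
      have h5 : x * 1 ≤ x * a i₀ := Nat.mul_le_mul_left x (ha i₀)
      omega
    · have h3' : x * a' j = x * a i₀ := h3
      exact hi₀ j (Nat.eq_of_mul_eq_mul_left hx h3').symm
  · show (univ.val.map f).card = 2 * k
    rw [Multiset.card_map, Finset.card_val, Finset.card_univ, hcard2]
  · show (univ.val.map g).card = 2 * k
    rw [Multiset.card_map, Finset.card_val, Finset.card_univ, hcard2]
  · exact pre_eq k (c * x * y) f g hcard2 hfpos hfg hfprod

/-- For every `k ≥ 4` there is an `M` such that for every `n ≥ M` there are two distinct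
partitions of `n` of length `2 k` with the same `pre_k`. -/
theorem result : ∀ k : ℕ, 4 ≤ k → ∃ M : ℕ, ∀ n ≥ M, ∃ l m : Nat.Partition n, l ≠ m ∧
    l.parts.card = 2 * k ∧ m.parts.card = 2 * k ∧ pre k l.parts = pre k m.parts := by
  intro k hk
  rcases hk.eq_or_lt with rfl | hk5
  · exact collide 4 1260 119 188 ![18, 28, 28, 45] ![20, 21, 36, 42] (by simp)
      (by decide) (by decide) (by decide) (by decide) (by norm_num) (by decide) (by decide)
      (by decide) (by decide) (by decide) (by norm_num) (by norm_num)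
      0 (by decide)
  · obtain ⟨m, rfl⟩ : ∃ m, k = m + 5 := ⟨k - 5, by omega⟩
    set b : ℕ := 188 + 1260 * m with hb
    set α : ℕ := 119 + m with hα
    obtain ⟨D, hD⟩ : ∃ D, D + 1260 = b * α := by
      refine ⟨b * α - 1260, Nat.sub_add_cancel ?_⟩
      calc 1260 ≤ 188 * 119 := by norm_num
        _ ≤ b * α := Nat.mul_le_mul (by omega) (by omega)
    have hD0 : 0 < D := by
      have : 188 * 119 ≤ b * α := Nat.mul_le_mul (by omega) (by omega)
      omega
    set a : Fin 4 ⊕ Fin (m + 1) → ℕ :=
      Sum.elim ![18, 28, 28, 45] (fun j => if j = 0 then 1260 * D else 1) with ha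
    set a' : Fin 4 ⊕ Fin (m + 1) → ℕ :=
      Sum.elim ![20, 21, 36, 42] (fun j => if j = 0 then 1260 * D else 1) with ha'
    have hT : 0 < 1260 * D := by omega
    have hcop : Nat.Coprime (α + 1260 * D) (b * D + 1) := by
      rw [Nat.coprime_iff_gcd_eq_one]
      set g := Nat.gcd (α + 1260 * D) (b * D + 1) with hg
      have h1 : g ∣ α + 1260 * D := Nat.gcd_dvd_left _ _
      have h2 : g ∣ b * D + 1 := Nat.gcd_dvd_right _ _
      have h3 : g ∣ 1260 * (b * D + 1) + D := by
        have h4 : 1260 * (b * D + 1) + D = b * (α + 1260 * D) := by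
          calc 1260 * (b * D + 1) + D = (D + 1260) + 1260 * (b * D) := by ring
            _ = b * α + 1260 * (b * D) := by rw [hD]
            _ = b * (α + 1260 * D) := by ring
        rw [h4]; exact Dvd.dvd.mul_left h1 b
      have h5 : g ∣ D := (Nat.dvd_add_right (Dvd.dvd.mul_left h2 1260)).1 h3
      have h6 : g ∣ 1 := (Nat.dvd_add_right (Dvd.dvd.mul_left h5 b)).1 h2
      exact Nat.dvd_one.1 h6
    have hdiv : ∀ q, q ∣ 1260 → (1260 * D) / q = (1260 / q) * D := by
      intro q hq
      rw [mul_comm 1260 D, Nat.mul_div_assoc D hq, mul_comm]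
    refine collide (m + 5) (1260 * D) (α + 1260 * D) (b * D + 1) a a' ?_ ?_ ?_ ?_ ?_ hT ?_ ?_ ?_
      ?_ ?_ (by omega) hcop (Sum.inl 0) ?_
    · simp; ring
    · rintro (i | j)
      · have : ∀ i : Fin 4, 0 < (![18, 28, 28, 45] : Fin 4 → ℕ) i := by decide
        exact this i
      · simp only [ha, Sum.elim_inr]; split_ifs
        · exact hT
        · norm_num
    · rintro (i | j)
      · have : ∀ i : Fin 4, 0 < (![20, 21, 36, 42] : Fin 4 → ℕ) i := by decide
        exact this i
      · simp only [ha', Sum.elim_inr]; split_ifs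
        · exact hT
        · norm_num
    · rintro (i | j)
      · have : ∀ i : Fin 4, (![18, 28, 28, 45] : Fin 4 → ℕ) i ∣ 1260 := by decide
        exact Dvd.dvd.mul_right (this i) D
      · simp only [ha, Sum.elim_inr]; split_ifs
        · exact dvd_rfl
        · exact one_dvd _
    · rintro (i | j)
      · have : ∀ i : Fin 4, (![20, 21, 36, 42] : Fin 4 → ℕ) i ∣ 1260 := by decide
        exact Dvd.dvd.mul_right (this i) D
      · simp only [ha', Sum.elim_inr]; split_ifs
        · exact dvd_rfl
        · exact one_dvd _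
    · rw [Fintype.sum_sum_type]
      simp only [ha, Sum.elim_inl, Sum.elim_inr, Fin.sum_univ_succ]
      simp [Fin.succ_ne_zero, hα]; ring
    · rw [Fintype.sum_sum_type]
      simp only [ha', Sum.elim_inl, Sum.elim_inr, Fin.sum_univ_succ]
      simp [Fin.succ_ne_zero, hα]; ring
    · rw [Fintype.sum_sum_type]
      simp only [ha, Sum.elim_inl, Sum.elim_inr, Fin.sum_univ_four]
      have h1 : (1260 * D) / 18 = 70 * D := hdiv 18 (by norm_num)
      have h2 : (1260 * D) / 28 = 45 * D := hdiv 28 (by norm_num)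
      have h3 : (1260 * D) / 45 = 28 * D := hdiv 45 (by norm_num)
      simp only [Fin.sum_univ_succ (n := m), Fin.succ_ne_zero, if_true, if_false, Nat.div_self hT,
        Nat.div_one, Finset.sum_const, Finset.card_univ, Fintype.card_fin, smul_eq_mul]
      simp [h1, h2, h3, hb]; ring
    · rw [Fintype.sum_sum_type]
      simp only [ha', Sum.elim_inl, Sum.elim_inr, Fin.sum_univ_four]
      have h1 : (1260 * D) / 20 = 63 * D := hdiv 20 (by norm_num)
      have h2 : (1260 * D) / 21 = 60 * D := hdiv 21 (by norm_num)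
      have h3 : (1260 * D) / 36 = 35 * D := hdiv 36 (by norm_num)
      have h4 : (1260 * D) / 42 = 30 * D := hdiv 42 (by norm_num)
      simp only [Fin.sum_univ_succ (n := m), Fin.succ_ne_zero, if_true, if_false, Nat.div_self hT,
        Nat.div_one, Finset.sum_const, Finset.card_univ, Fintype.card_fin, smul_eq_mul]
      simp [h1, h2, h3, h4, hb]; ring
    · rw [Fintype.prod_sum_type, Fintype.prod_sum_type]
      simp only [ha, ha', Sum.elim_inl, Sum.elim_inr]
      congr 1
    · rintro (i | j)
      · have : ∀ i : Fin 4, (18 : ℕ) ≠ (![20, 21, 36, 42] : Fin 4 → ℕ) i := by decide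
        exact this i
      · show (18 : ℕ) ≠ if j = 0 then 1260 * D else 1
        split_ifs <;> omega

end Pool.Agent.Results.MP_b67aea_co.AllKFromFour
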